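import Pool.Agent.Work.MP_56b8f5_nt.UC.All

/-!
The eighth moment of the Riemann zeta function on the lines `Re s = σ`, in a range of `σ` which begins to the left of
`5/8`: asymptotic formula with a power saving,
`∫_1^T |ζ(σ+it)|^8 dt = T ∑ d_4(n)^2 n^(-2σ) + O(T^(1-c))`.
Here `d_4(n)`, the number of ordered factorisations of `n` into four factors, is written as the value at `n` of the
fourth Dirichlet convolution power of the constant function `1` (`ArithmeticFunction.zeta ^ 4`).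
-/

open MeasureTheory Set

namespace Pool.Agent.Work.MP_56b8f5_nt.Kept.EighthMomentOffLine

theorem result : ∃ σ₀ : ℝ, σ₀ < 5 / 8 ∧ ∀ σ : ℝ, σ₀ < σ → σ < 1 →
    (Summable fun n : ℕ => ((ArithmeticFunction.zeta ^ 4) n : ℝ) ^ 2 / (n : ℝ) ^ (2 * σ)) ∧
    ∃ c C : ℝ, 0 < c ∧ ∀ T : ℝ, 1 ≤ T →
      |(∫ t in (1 : ℝ)..T, ‖riemannZeta (σ + t * Complex.I)‖ ^ 8) -
        T * ∑' n : ℕ, ((ArithmeticFunction.zeta ^ 4) n : ℝ) ^ 2 / (n : ℝ) ^ (2 * σ)| ≤ C * T ^ (1 - c) := by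
  obtain ⟨δ, hδ, -, h⟩ := Pool.Agent.Work.MP_56b8f5_nt.UC.all_UA
  refine ⟨5 / 8 - δ / 8, by linarith, fun σ h1 h2 => ?_⟩
  have e : Pool.Agent.Work.MP_56b8f5_nt.UC.sg δ (2 * ((4 : ℕ) : ℝ)) = 5 / 8 - δ / 8 := by
    unfold Pool.Agent.Work.MP_56b8f5_nt.UC.sg
    push_cast
    ring
  obtain ⟨hs, c, C, hc, -, hT⟩ := h 4 (Or.inr rfl) σ (by rw [e]; exact h1) h2
  exact ⟨hs, c, C, hc, hT⟩

end Pool.Agent.Work.MP_56b8f5_nt.Kept.EighthMomentOffLine
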