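import Pool.Agent.Work.MP_56b8f5_nt.WM.AllG

/-!
The part of the `2k`-th moment of the Riemann zeta function on the critical line on which zeta is dominated by a
short Dirichlet polynomial has the conjectured order `T (log T)^(k²)` and lives on the values
`|zeta| = (log T)^k exp(O(√(log log T)))`. The case `k = 4` is the eighth moment.
-/

open Filter Topology MeasureTheory Set

namespace Pool.Agent.Results.MP_56b8f5_nt.EighthMomentWindow

theorem result (k : ℕ) (hk : 2 ≤ k) : ∃ c C : ℝ, 0 < c ∧ 1 ≤ C ∧ ∀ᶠ T : ℝ in atTop,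
    ∃ (X : ℕ) (a : ℕ → ℝ) (N : ℝ → ℂ), (X : ℝ) ≤ T ^ (1 / 8 : ℝ) ∧ (∀ n, 0 ≤ a n ∧ a n ≤ 1) ∧
      (∀ t : ℝ, N t = ∑ n ∈ Finset.Icc 1 X, (a n : ℂ) * (n : ℂ) ^ (-(1 / 2 + t * Complex.I))) ∧
      -- (1) upper bound for the moment on the set where `|zeta| ≤ A |N|`
      (∀ A : ℝ, 1 ≤ A →
        ∫ t in {t : ℝ | t ∈ Icc T (2 * T) ∧ ‖riemannZeta (1 / 2 + t * Complex.I)‖ ≤ A * ‖N t‖},
          ‖riemannZeta (1 / 2 + t * Complex.I)‖ ^ (2 * k) ≤
            C * A ^ (2 * k - 2) * T * Real.log T ^ (k ^ 2)) ∧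
      -- (2) lower bound for the moment on the window
      (c * T * Real.log T ^ (k ^ 2) ≤
        ∫ t in {t : ℝ | t ∈ Icc T (2 * T) ∧ ‖riemannZeta (1 / 2 + t * Complex.I)‖ ≤ C * ‖N t‖ ∧
          |Real.log ‖riemannZeta (1 / 2 + t * Complex.I)‖ - k * Real.log (Real.log T)| ≤
            C * Real.sqrt (Real.log (Real.log T))},
          ‖riemannZeta (1 / 2 + t * Complex.I)‖ ^ (2 * k)) ∧
      -- (3) the measure of the window
      (T / Real.log T ^ (k ^ 2) * Real.exp (-(C * Real.sqrt (Real.log (Real.log T)))) ≤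
        volume.real {t : ℝ | t ∈ Icc T (2 * T) ∧
          ‖riemannZeta (1 / 2 + t * Complex.I)‖ ≤ C * ‖N t‖ ∧
          |Real.log ‖riemannZeta (1 / 2 + t * Complex.I)‖ - k * Real.log (Real.log T)| ≤
            C * Real.sqrt (Real.log (Real.log T))}) ∧
      -- (4) concentration: the part outside the window is small
      (∀ A K : ℝ, 1 ≤ A → 1 ≤ K → K ≤ Real.sqrt (Real.log (Real.log T)) →
        ∫ t in {t : ℝ | t ∈ Icc T (2 * T) ∧ ‖riemannZeta (1 / 2 + t * Complex.I)‖ ≤ A * ‖N t‖ ∧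
          C * K * Real.sqrt (Real.log (Real.log T)) <
            |Real.log ‖riemannZeta (1 / 2 + t * Complex.I)‖ - k * Real.log (Real.log T)|},
          ‖riemannZeta (1 / 2 + t * Complex.I)‖ ^ (2 * k) ≤
            C * A ^ (2 * k) * Real.exp (-(K ^ 2)) * T * Real.log T ^ (k ^ 2)) ∧
      -- (5) frequency of large values
      (∀ A V : ℝ, 1 ≤ A → ((k : ℝ) - 1) * Real.log (Real.log T) ≤ V →
        V ≤ ((k : ℝ) + 1) * Real.log (Real.log T) →
        volume.real {t : ℝ | t ∈ Icc T (2 * T) ∧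
          ‖riemannZeta (1 / 2 + t * Complex.I)‖ ≤ A * ‖N t‖ ∧
          Real.exp V ≤ ‖riemannZeta (1 / 2 + t * Complex.I)‖} ≤
          C * A ^ (2 * k) * T * Real.exp (-(V ^ 2 / Real.log (Real.log T))) *
            Real.log (Real.log T) ^ (k + 1)) := by
  obtain ⟨c, C, hc, hC, h⟩ := Pool.Agent.Work.MP_56b8f5_nt.WM.wm_MainG k hk
  refine ⟨c, C, hc, hC, ?_⟩
  filter_upwards [h] with T hT
  obtain ⟨X, a, hX, ha, h1, h2, h3, h4, -, h6⟩ := hT
  refine ⟨X, a, Pool.Agent.Work.MP_56b8f5_nt.WM.DP a X, hX, ha, ?_, h1, h2, h3, h4, h6⟩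
  intro t
  unfold Pool.Agent.Work.MP_56b8f5_nt.WM.DP
  rw [Finset.range_eq_Ico, Finset.sum_eq_sum_Ico_succ_bot (Nat.succ_pos X)]
  have h0 : (a 0 : ℂ) * ((0 : ℕ) : ℂ) ^ (-(1 / 2 + (t : ℂ) * Complex.I)) = 0 := by
    rw [Nat.cast_zero, Complex.zero_cpow, mul_zero]
    intro h
    have := congrArg Complex.re h
    simp at this
  rw [h0, zero_add]
  rfl

end Pool.Agent.Results.MP_56b8f5_nt.EighthMomentWindow
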