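import Pool.Agent.Work.MP_56b8f5_nt.WA.All

/-!
The conjectured order of the `2k`-th moment of the Riemann zeta function on the critical line (`k = 4`: the eighth
moment) is attained on the values of zeta in an arbitrary small sector, of size `(log T)^(k + o(1))`.
-/

open Filter Topology

namespace Pool.Agent.Results.MP_56b8f5_nt.SectorMoments

theorem result :
    ∀ (k : ℕ) (δ : ℝ), 2 ≤ k → 0 < δ → ∃ c C : ℝ, 0 < c ∧ 0 < C ∧
      ∀ᶠ T : ℝ in atTop, ∀ ω : ℂ, ‖ω‖ = 1 →
        c * T * Real.log T ^ (k ^ 2) ≤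
          ∫ t in {t : ℝ | T ≤ t ∧ t ≤ 2 * T ∧
            (1 - δ) * ‖riemannZeta (1 / 2 + t * Complex.I)‖ <
              ((starRingEnd ℂ) ω * riemannZeta (1 / 2 + t * Complex.I)).re ∧
            |Real.log ‖riemannZeta (1 / 2 + t * Complex.I)‖ - k * Real.log (Real.log T)| ≤
              C * Real.sqrt (Real.log (Real.log T))},
            ‖riemannZeta (1 / 2 + t * Complex.I)‖ ^ (2 * k) := by
  intro k δ hk hδ
  obtain ⟨c, C, hc, hC, h⟩ := Pool.Agent.Work.MP_56b8f5_nt.WA.wa_MainA k δ hk hδ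
  refine ⟨c, C, hc, lt_of_lt_of_le one_pos hC, ?_⟩
  filter_upwards [h] with T hT ω hω
  have h1 := hT ω hω
  have hs : {t : ℝ | t ∈ Set.Icc T (2 * T) ∧
      (1 - δ) * Pool.Agent.Work.MP_56b8f5_nt.WM.az t <
        ((starRingEnd ℂ) ω * Pool.Agent.Work.MP_56b8f5_nt.WA.zt t).re ∧
      |Real.log (Pool.Agent.Work.MP_56b8f5_nt.WM.az t) - k * Real.log (Real.log T)| ≤
        C * Real.sqrt (Real.log (Real.log T))} =
      {t : ℝ | T ≤ t ∧ t ≤ 2 * T ∧
            (1 - δ) * ‖riemannZeta (1 / 2 + t * Complex.I)‖ <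
              ((starRingEnd ℂ) ω * riemannZeta (1 / 2 + t * Complex.I)).re ∧
            |Real.log ‖riemannZeta (1 / 2 + t * Complex.I)‖ - k * Real.log (Real.log T)| ≤
              C * Real.sqrt (Real.log (Real.log T))} := by
    ext t
    simp only [Set.mem_setOf_eq, Set.mem_Icc, and_assoc, Pool.Agent.Work.MP_56b8f5_nt.WM.az,
      Pool.Agent.Work.MP_56b8f5_nt.WA.zt]
  rw [hs] at h1
  exact h1

end Pool.Agent.Results.MP_56b8f5_nt.SectorMoments
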