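import Pool.Agent.Work.MP_56b8f5_nt.SX.All

/-!
Moments of the Riemann zeta function on the critical line restricted to a sector of opening `θ` and to a window of
`log |zeta|` of width `H` around `κ log log T`: a lower bound of the expected order, linear in `θ` and in `H`, for all real
`κ` of both signs (`κ = 4`: the eighth moment; `κ = 0`: the measure of the set).
-/

open Filter Topology MeasureTheory

namespace Pool.Agent.Results.MP_56b8f5_nt.SectorSharpMoments

theorem result : ∀ k : ℕ, 1 ≤ k → ∃ c C : ℝ, 0 < c ∧ 1 ≤ C ∧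
    ∀ θ : ℝ, 0 < θ → θ ≤ Real.pi → ∀ᶠ T : ℝ in atTop,
    ∀ κ H : ℝ, |κ| ≤ k → 1 ≤ H → H ≤ Real.sqrt (Real.log (Real.log T)) → ∀ ω : ℂ, ‖ω‖ = 1 →
      c * θ * (H / Real.sqrt (Real.log (Real.log T))) * (T * Real.log T ^ (κ ^ 2 : ℝ)) ≤
        ∫ t in {t : ℝ | T ≤ t ∧ t ≤ 2 * T ∧
          Real.cos θ * ‖riemannZeta (1 / 2 + t * Complex.I)‖ <
            ((starRingEnd ℂ) ω * riemannZeta (1 / 2 + t * Complex.I)).re ∧
          Real.exp (κ * Real.log (Real.log T) - C * H) ≤ ‖riemannZeta (1 / 2 + t * Complex.I)‖ ∧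
          ‖riemannZeta (1 / 2 + t * Complex.I)‖ ≤ Real.exp (κ * Real.log (Real.log T) + C * H)},
          ‖riemannZeta (1 / 2 + t * Complex.I)‖ ^ (2 * κ : ℝ) :=
  Pool.Agent.Work.MP_56b8f5_nt.SX.sx_MomS

end Pool.Agent.Results.MP_56b8f5_nt.SectorSharpMoments
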