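import Pool.Agent.Work.MP_56b8f5_nt.SH.All

/-!
A lower bound, sharp up to a constant factor, for the distribution of `log |zeta(1/2+it)|` in the whole range of large
deviations, stated for all real moments over the windows (`κ = 0`: the measure; `κ = 8`: the eighth moment).
-/

open Filter Topology MeasureTheory

namespace Pool.Agent.Results.MP_56b8f5_nt.SharpDistribution

theorem result : ∀ k : ℕ, 1 ≤ k → ∃ c C : ℝ, 0 < c ∧ 1 ≤ C ∧ ∀ᶠ T : ℝ in atTop,
    ∀ V κ : ℝ, |V| ≤ k * Real.log (Real.log T) → |κ| ≤ 2 * k →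
      c * T * (Real.exp (κ * V - V ^ 2 / Real.log (Real.log T)) /
          Real.sqrt (Real.log (Real.log T))) ≤
        ∫ t in {t : ℝ | T ≤ t ∧ t ≤ 2 * T ∧
          Real.exp (V - C) ≤ ‖riemannZeta (1 / 2 + t * Complex.I)‖ ∧
          ‖riemannZeta (1 / 2 + t * Complex.I)‖ ≤ Real.exp (V + C)},
          ‖riemannZeta (1 / 2 + t * Complex.I)‖ ^ κ :=
  Pool.Agent.Work.MP_56b8f5_nt.SH.fin_pf Pool.Agent.Work.MP_56b8f5_nt.SH.all_Main

end Pool.Agent.Results.MP_56b8f5_nt.SharpDistribution
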